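import Mathlib
import Pool.Agent.H57.Cong

namespace Pool.Agent.Results.MP_bdd522_nt.Fails

open Finset Pool.Agent.H57.Cong

/-- the second sum in part (b) -/
def S (p : ℕ) : ℚ := ∑ k ∈ range p, (3 * (k : ℚ) + 1) * (T k 2 3 : ℚ) ^ 3 / (-64) ^ k

/-- The second congruence of part (b) fails. -/
theorem result : ¬ ∀ p : ℕ, p.Prime → 3 < p → Cong p 3 (S p) (p * (jacobiSym (-2) p : ℚ)) := by
  intro h
  have := h 7 (by norm_num) (by norm_num)
  rw [show jacobiSym (-2) 7 = -1 by norm_num] at this
  refine not_cong (by norm_num) ?_ this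
  simp only [S, T, Nat.choose_eq_descFactorial_div_factorial]
  decide +kernel

end Pool.Agent.Results.MP_bdd522_nt.Fails
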